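import Pool.Agent.Helper70.EH.Goals2

/-! Packet EH-IN: a small integral. -/

namespace Pool.Agent.Helper80.EH.IN

open Pool.Agent.Helper70.EH

theorem key (t : ℕ) (x y : ℝ) : (∑ p ∈ Finset.HasAntidiagonal.antidiagonal t, x ^ p.1 * y ^ p.2) * (x - y) =
    x ^ (t + 1) - y ^ (t + 1) := by
  rw [Finset.Nat.sum_antidiagonal_eq_sum_range_succ (fun i j => x ^ i * y ^ j) t]
  have h := (Commute.all x y).geom_sum₂_mul (t + 1)
  rw [← h]
  congr 1

theorem t : G_IN := by
  intro t x y
  by_cases hxy : x = y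
  · subst hxy
    have h1 : (fun θ : ℝ => (θ * x + (1 - θ) * x) ^ t) = fun _ => x ^ t := by
      funext θ
      congr 1
      ring
    rw [h1, intervalIntegral.integral_const]
    have h2 : ∑ p ∈ Finset.HasAntidiagonal.antidiagonal t, x ^ p.1 * x ^ p.2 = ((t : ℝ) + 1) * x ^ t := by
      rw [Finset.sum_congr rfl (g := fun _ => x ^ t)]
      · rw [Finset.sum_const, Finset.Nat.card_antidiagonal]
        simp
      · intro p hp
        rw [Finset.HasAntidiagonal.mem_antidiagonal] at hp
        rw [← pow_add, hp]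
    rw [h2]
    have h3 : ((t : ℝ) + 1) ≠ 0 := by positivity
    field_simp
    simp
  · have hne : x - y ≠ 0 := sub_ne_zero.mpr hxy
    have h3 : ((t : ℝ) + 1) ≠ 0 := by positivity
    have hd : ∀ θ ∈ Set.uIcc (0 : ℝ) 1, HasDerivAt (fun θ : ℝ => (θ * x + (1 - θ) * y) ^ (t + 1) / (((t : ℝ) + 1) * (x - y)))
        ((θ * x + (1 - θ) * y) ^ t) θ := by
      intro θ _
      have h4 : HasDerivAt (fun θ : ℝ => θ * x + (1 - θ) * y) (x - y) θ := by
        have h5 : HasDerivAt (fun θ : ℝ => θ * x) x θ := by simpa using (hasDerivAt_id θ).mul_const x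
        have h6 : HasDerivAt (fun θ : ℝ => (1 - θ) * y) (-y) θ := by
          simpa using ((hasDerivAt_const θ (1 : ℝ)).sub (hasDerivAt_id θ)).mul_const y
        have h7 := h5.add h6
        rw [sub_eq_add_neg]
        exact h7
      have h8 := (h4.pow (t + 1)).div_const (((t : ℝ) + 1) * (x - y))
      have h10 : ((t + 1 : ℕ) : ℝ) * (θ * x + (1 - θ) * y) ^ (t + 1 - 1) * (x - y) / (((t : ℝ) + 1) * (x - y)) =
          (θ * x + (1 - θ) * y) ^ t := by
        have e1 : t + 1 - 1 = t := by omega
        rw [e1, div_eq_iff (mul_ne_zero h3 hne)]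
        push_cast
        ring
      rw [h10] at h8
      exact h8
    rw [intervalIntegral.integral_eq_sub_of_hasDerivAt hd]
    · have hk := key t x y
      have h9 : ∑ p ∈ Finset.HasAntidiagonal.antidiagonal t, x ^ p.1 * y ^ p.2 = (x ^ (t + 1) - y ^ (t + 1)) / (x - y) := by
        rw [← hk]
        field_simp
      rw [h9]
      field_simp
      simp
    · apply Continuous.intervalIntegrable
      fun_prop

end Pool.Agent.Helper80.EH.IN
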